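import Pool.Agent.N879.GD.Stm
import Pool.Agent.Y587.GP.V

set_option autoImplicit false

/-!
Project GZ: the Mellin transform of `ff - D0` with the weight `W` (helper221).
-/

namespace Pool.Agent.N879.GD

open Complex Filter Topology MeasureTheory Set
open Pool.Agent.Y969.GP (ff V ht lam PS co PX)

namespace Lem

/-- the off-diagonal part -/
noncomputable def OO (X : ℕ) (u : ℝ) : ℂ := ∑ p ∈ (PS X).filter (fun p => p.1 ≠ p.2),
      (co p u : ℂ) * cexp (I * ((u * lam p : ℝ) : ℂ))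

/-- the diagonal part -/
noncomputable def DD (X : ℕ) (u : ℝ) : ℝ := ∑ p ∈ (PS X).filter (fun p => p.1 = p.2), co p u

lemma split (X : ℕ) (u : ℝ) : PX X u = (DD X u : ℂ) + OO X u := by
  unfold PX DD OO
  rw [← Finset.sum_filter_add_sum_filter_not (PS X) (fun p => p.1 = p.2)]
  congr 1
  rw [ofReal_sum]
  refine Finset.sum_congr rfl fun p hp => ?_
  have h := (Finset.mem_filter.1 hp).2
  have h1 : lam p = 0 := by
    unfold lam
    rw [h, sub_self]
  rw [h1, mul_zero, ofReal_zero, mul_zero, Complex.exp_zero, mul_one]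

lemma mem_PS {X : ℕ} {p : ℕ × ℕ} (hp : p ∈ PS X) : 1 ≤ p.1 ∧ 1 ≤ p.2 := by
  unfold PS at hp
  rw [Finset.mem_filter, Finset.mem_product, Finset.mem_Icc, Finset.mem_Icc] at hp
  exact ⟨hp.1.1.1, hp.1.2.1⟩

lemma card_PS (X : ℕ) : (PS X).card ≤ X ^ 2 := by
  unfold PS
  refine (Finset.card_filter_le _ _).trans ?_
  rw [Finset.card_product, Nat.card_Icc]
  simp [sq]

lemma co_bd {X : ℕ} {p : ℕ × ℕ} (hp : p ∈ PS X) {u : ℝ} (hu : 0 < u) : |co p u| ≤ 2 := by
  obtain ⟨h1, h2⟩ := mem_PS hp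
  have h3 : (1 : ℝ) ≤ ht p := by
    unfold ht
    have h1' : (1 : ℝ) ≤ p.1 := by exact_mod_cast h1
    have h2' : (1 : ℝ) ≤ p.2 := by exact_mod_cast h2
    nlinarith
  have h4 : 0 < 2 * Real.pi * ht p / u := by positivity
  obtain ⟨h5, h6⟩ := Pool.Agent.Y587.GP.t_V.1 _ h4
  have h7 : 1 ≤ √(ht p) := Real.one_le_sqrt.2 h3
  have h8 : (√(ht p))⁻¹ ≤ 1 := inv_le_one_of_one_le₀ h7
  have h9 : 0 ≤ (√(ht p))⁻¹ := by positivity
  unfold co
  rw [abs_of_nonneg (by positivity)]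
  calc 2 * (√(ht p))⁻¹ * V (2 * Real.pi * ht p / u) ≤ 2 * 1 * 1 := by gcongr
    _ = 2 := by norm_num

lemma OO_bd (X : ℕ) {u : ℝ} (hu : 0 < u) : ‖OO X u‖ ≤ 2 * (X : ℝ) ^ 2 := by
  unfold OO
  refine (norm_sum_le _ _).trans ?_
  have h1 : ∀ p ∈ (PS X).filter (fun p => p.1 ≠ p.2),
      ‖(co p u : ℂ) * cexp (I * ((u * lam p : ℝ) : ℂ))‖ ≤ 2 := by
    intro p hp
    rw [norm_mul, mul_comm I, norm_exp_ofReal_mul_I, mul_one, norm_real, Real.norm_eq_abs]
    exact co_bd (Finset.mem_filter.1 hp).1 hu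
  refine (Finset.sum_le_card_nsmul _ _ _ h1).trans ?_
  rw [nsmul_eq_mul]
  have h2 : (((PS X).filter (fun p => p.1 ≠ p.2)).card : ℝ) ≤ (X : ℝ) ^ 2 := by
    exact_mod_cast (Finset.card_filter_le _ _).trans (card_PS X)
  linarith

lemma abs_log_le {u : ℝ} (hu : 0 < u) : |Real.log u| ≤ u + u⁻¹ := by
  have h1 : 0 < u⁻¹ := by positivity
  have h2 := Real.log_le_sub_one_of_pos hu
  have h3 := Real.log_le_sub_one_of_pos h1
  rw [Real.log_inv] at h3
  rw [abs_le]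
  constructor <;> linarith

lemma D0_bd : ∃ K : ℝ, 0 < K ∧ ∀ u : ℝ, 0 < u → |D0 u| ≤ u + u⁻¹ + K := by
  refine ⟨|Real.log (2 * Real.pi)| + |2 * Real.eulerMascheroniConstant| + 1, by positivity, fun u hu => ?_⟩
  unfold D0
  rw [Real.log_div hu.ne' (by positivity)]
  have h1 := abs_log_le hu
  have h2 : |Real.log u - Real.log (2 * Real.pi) + 2 * Real.eulerMascheroniConstant| ≤
      |Real.log u| + |Real.log (2 * Real.pi)| + |2 * Real.eulerMascheroniConstant| := by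
    refine (abs_add_le _ _).trans ?_
    have := abs_sub (Real.log u) (Real.log (2 * Real.pi))
    linarith
  linarith

/-- crude bound for `ff - D0` -/
lemma E_bd (h : S_CRU) : ∃ (C : ℝ) (N : ℕ), 0 < C ∧ (∀ u : ℝ, 0 < u → u ≤ 1 → |ff u - D0 u| ≤ C * u⁻¹) ∧
    ∀ u : ℝ, 1 ≤ u → |ff u - D0 u| ≤ C * u ^ N := by
  obtain ⟨C, N, hC, -, h1, -⟩ := h
  obtain ⟨K, hK, h2⟩ := D0_bd
  have hff : ∀ u : ℝ, 0 ≤ ff u := fun u => by
    unfold ff
    positivity
  refine ⟨C * 2 ^ N + 2 + K, N + 1, by positivity, fun u hu hu1 => ?_, fun u hu => ?_⟩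
  · have h3 := h1 u hu.le
    have h4 := h2 u hu
    have h5 : 1 ≤ u⁻¹ := (one_le_inv₀ hu).2 hu1
    have h6 : (1 + u) ^ N ≤ 2 ^ N := by
      gcongr
      linarith
    have h7 : |ff u - D0 u| ≤ ff u + |D0 u| := by
      refine (abs_sub _ _).trans ?_
      rw [abs_of_nonneg (hff u)]
    have h8 : C * (1 + u) ^ N ≤ C * 2 ^ N * u⁻¹ := by
      calc C * (1 + u) ^ N ≤ C * 2 ^ N := by gcongr
        _ = C * 2 ^ N * 1 := by ring
        _ ≤ C * 2 ^ N * u⁻¹ := by gcongr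
    have h9 : K ≤ K * u⁻¹ := by nlinarith
    have h10 : (C * 2 ^ N + 2 + K) * u⁻¹ = C * 2 ^ N * u⁻¹ + 2 * u⁻¹ + K * u⁻¹ := by ring
    linarith
  · have hu0 : 0 < u := by linarith
    have h3 := h1 u hu0.le
    have h4 := h2 u hu0
    have h5 : u⁻¹ ≤ 1 := inv_le_one_of_one_le₀ hu
    have h6 : (1 + u) ^ N ≤ (2 * u) ^ N := by
      gcongr
      linarith
    have h7 : |ff u - D0 u| ≤ ff u + |D0 u| := by
      refine (abs_sub _ _).trans ?_
      rw [abs_of_nonneg (hff u)]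
    have h11 : u ≤ u ^ (N + 1) := le_self_pow₀ hu (by omega)
    have h12 : 1 ≤ u ^ (N + 1) := one_le_pow₀ hu
    have h13 : u ^ N ≤ u ^ (N + 1) := pow_le_pow_right₀ hu (by omega)
    have h8 : C * (1 + u) ^ N ≤ C * 2 ^ N * u ^ (N + 1) := by
      calc C * (1 + u) ^ N ≤ C * (2 * u) ^ N := by gcongr
        _ = C * 2 ^ N * u ^ N := by rw [mul_pow]; ring
        _ ≤ C * 2 ^ N * u ^ (N + 1) := by gcongr
    have h9 : K ≤ K * u ^ (N + 1) := by nlinarith
    have h10 : (C * 2 ^ N + 2 + K) * u ^ (N + 1) = C * 2 ^ N * u ^ (N + 1) + 2 * u ^ (N + 1) +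
      K * u ^ (N + 1) := by ring
    linarith

/-! ### Gamma integrals -/

lemma intg {s r : ℝ} (hs : -1 < s) (hr : 0 < r) :
    IntegrableOn (fun u : ℝ => u ^ s * Real.exp (-(r * u))) (Ioi 0) := by
  have h := integrableOn_rpow_mul_exp_neg_mul_rpow (p := 1) hs one_pos hr
  refine h.congr_fun (fun u _ => ?_) measurableSet_Ioi
  simp only [Real.rpow_one, neg_mul]

lemma val {s r : ℝ} (hs : -1 < s) (hr : 0 < r) :
    ∫ u in Ioi (0 : ℝ), u ^ s * Real.exp (-(r * u)) = (1 / r) ^ (s + 1) * Real.Gamma (s + 1) := by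
  have h := Real.integral_rpow_mul_exp_neg_mul_Ioi (a := s + 1) (r := r) (by linarith) hr
  rwa [add_sub_cancel_right] at h

lemma W_eq (a : ℝ) {T u : ℝ} (hT : 0 < T) (hu : 0 < u) :
    W a T u = T ^ (-a) * (u ^ (a - 1) * Real.exp (-(T⁻¹ * u))) := by
  unfold W
  rw [Real.div_rpow hu.le hT.le, Real.rpow_neg hT.le, Real.rpow_sub hu, Real.rpow_one]
  have : u / T = T⁻¹ * u := by ring
  rw [this]
  field_simp

lemma W_nonneg (a : ℝ) {T u : ℝ} (hT : 0 < T) (hu : 0 < u) : 0 ≤ W a T u := by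
  unfold W
  positivity

/-! ### Exponential decay -/

lemma expo (N : ℕ) {κ : ℝ} (hκ : 0 < κ) : ∃ C : ℝ, 0 < C ∧ ∀ u : ℝ, 1 ≤ u →
    u ^ N * Real.exp (-(u ^ κ / 2)) ≤ C * u ^ (-(1 / 2 : ℝ)) := by
  set M : ℕ := ⌈((N : ℝ) + 1) / κ⌉₊ with hM
  have hMκ : (N : ℝ) + 1 ≤ κ * M := by
    have := Nat.le_ceil (((N : ℝ) + 1) / κ)
    rw [div_le_iff₀ hκ] at this
    linarith
  refine ⟨M.factorial * 2 ^ M, by positivity, fun u hu => ?_⟩
  have hu0 : 0 < u := by linarith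
  set x := u ^ κ / 2 with hx
  have hx0 : 0 < x := by positivity
  have h1 := Real.pow_div_factorial_le_exp x hx0.le M
  have h2 : Real.exp (-x) ≤ M.factorial / x ^ M := by
    rw [Real.exp_neg, inv_le_comm₀ (Real.exp_pos _) (by positivity), inv_div]
    exact h1
  have h3 : x ^ M = u ^ (κ * M) / 2 ^ M := by
    rw [hx, div_pow, Real.rpow_mul hu0.le, Real.rpow_natCast]
  have h4 : u ^ N * u ^ (1 / 2 : ℝ) ≤ u ^ (κ * M) := by
    rw [← Real.rpow_natCast u N, ← Real.rpow_add hu0]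
    exact Real.rpow_le_rpow_of_exponent_le hu (by linarith)
  have h5 : 0 < u ^ (κ * M) := by positivity
  calc u ^ N * Real.exp (-x) ≤ u ^ N * (M.factorial / x ^ M) := by gcongr
    _ = M.factorial * 2 ^ M * (u ^ N / u ^ (κ * M)) := by
        rw [h3]
        field_simp
    _ ≤ M.factorial * 2 ^ M * u ^ (-(1 / 2 : ℝ)) := by
        refine mul_le_mul_of_nonneg_left ?_ (by positivity)
        rw [div_le_iff₀ h5, Real.rpow_neg hu0.le, inv_mul_eq_div, le_div_iff₀ (by positivity)]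
        exact h4

/-- the pointwise bound of the remainder -/
lemma ptw (h2 : S_DIA) (h3 : S_CRU) (h4 : Pool.Agent.Y969.GP.S_AFE) {a ε : ℝ} (ha : 3 < a) (hε : 0 < ε)
    (hε1 : ε ≤ 1 / 4) : ∃ K₁ K₂ : ℝ, 0 < K₁ ∧ 0 < K₂ ∧ ∀ (T : ℝ) (X : ℕ), 1 ≤ T → T ^ (1 + ε) ≤ X →
    X ≤ 2 * T ^ (1 + ε) → ∀ u : ℝ, 0 < u →
    W a T u * ‖((ff u - D0 u : ℝ) : ℂ) - OO X u‖ ≤
      K₁ * T ^ (-(1 / 2 : ℝ)) * (u ^ (a - 2) * Real.exp (-(1 * u))) +
      K₂ * T ^ (-a) * (u ^ (a - 3 / 2 + ε / 4) * Real.exp (-((2 * T)⁻¹ * u))) := by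
  obtain ⟨C, N, hC, hE1, hE2⟩ := E_bd h3
  set e := ε / 4 with he
  have he0 : 0 < e := by positivity
  obtain ⟨C2, hC2, hAFE⟩ := h4 e he0
  obtain ⟨C3, hC3, hDIA⟩ := h2 e he0
  set κ := e / (1 + e) with hκ
  have hκ0 : 0 < κ := by positivity
  obtain ⟨C4, hC4, hexp⟩ := expo (N + 4) hκ0
  refine ⟨(C + 8) * Real.exp 1, C2 + C3 + (C + 8) * C4, by positivity, by positivity,
    fun T X hT hX1 hX2 u hu => ?_⟩
  have hT0 : 0 < T := by linarith
  have hX0 : (0 : ℝ) ≤ X := Nat.cast_nonneg _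
  have hW := W_nonneg a hT0 hu
  have hcr : ‖((ff u - D0 u : ℝ) : ℂ) - OO X u‖ ≤ |ff u - D0 u| + 2 * (X : ℝ) ^ 2 := by
    refine (norm_sub_le _ _).trans ?_
    rw [norm_real, Real.norm_eq_abs]
    exact add_le_add le_rfl (OO_bd X hu)
  have hP1 : 0 ≤ (C + 8) * Real.exp 1 * T ^ (-(1 / 2 : ℝ)) * (u ^ (a - 2) * Real.exp (-(1 * u))) := by
    positivity
  have hP2 : 0 ≤ (C2 + C3 + (C + 8) * C4) * T ^ (-a) *
      (u ^ (a - 3 / 2 + e) * Real.exp (-((2 * T)⁻¹ * u))) := by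
    positivity
  rcases le_total u 1 with hu1 | hu1
  · -- small `u`
    refine le_trans ?_ (le_add_of_nonneg_right hP2)
    have h5 : (X : ℝ) ^ 2 ≤ 4 * T ^ (5 / 2 : ℝ) := by
      calc (X : ℝ) ^ 2 ≤ (2 * T ^ (1 + ε)) ^ 2 := by gcongr
        _ = 4 * T ^ ((1 + ε) * 2) := by
            rw [mul_pow, ← Real.rpow_natCast (T ^ (1 + ε)) 2, ← Real.rpow_mul hT0.le]
            norm_num
        _ ≤ 4 * T ^ (5 / 2 : ℝ) := by
            gcongr
            linarith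
    have h6 : 1 ≤ u⁻¹ := (one_le_inv₀ hu).2 hu1
    have h7 : 1 ≤ T ^ (5 / 2 : ℝ) := Real.one_le_rpow hT (by norm_num)
    have h8 : ‖((ff u - D0 u : ℝ) : ℂ) - OO X u‖ ≤ (C + 8) * T ^ (5 / 2 : ℝ) * u⁻¹ := by
      refine hcr.trans ?_
      have h9 := hE1 u hu hu1
      have h10 : C * u⁻¹ ≤ C * T ^ (5 / 2 : ℝ) * u⁻¹ := by
        calc C * u⁻¹ = C * 1 * u⁻¹ := by ring
          _ ≤ C * T ^ (5 / 2 : ℝ) * u⁻¹ := by gcongr
      have h11 : 2 * (X : ℝ) ^ 2 ≤ 8 * T ^ (5 / 2 : ℝ) * u⁻¹ := by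
        calc 2 * (X : ℝ) ^ 2 ≤ 2 * (4 * T ^ (5 / 2 : ℝ)) := by gcongr
          _ = 8 * T ^ (5 / 2 : ℝ) * 1 := by ring
          _ ≤ 8 * T ^ (5 / 2 : ℝ) * u⁻¹ := by gcongr
      have h12 : (C + 8) * T ^ (5 / 2 : ℝ) * u⁻¹ = C * T ^ (5 / 2 : ℝ) * u⁻¹ +
        8 * T ^ (5 / 2 : ℝ) * u⁻¹ := by ring
      linarith
    have h13 : Real.exp (-(T⁻¹ * u)) ≤ Real.exp 1 * Real.exp (-(1 * u)) := by
      rw [← Real.exp_add]
      apply Real.exp_le_exp.2
      have : 0 ≤ T⁻¹ * u := by positivity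
      linarith
    have h14 : T ^ (-a) * T ^ (5 / 2 : ℝ) ≤ T ^ (-(1 / 2 : ℝ)) := by
      rw [← Real.rpow_add hT0]
      exact Real.rpow_le_rpow_of_exponent_le hT (by linarith)
    have h15 : u ^ (a - 1) * u⁻¹ = u ^ (a - 2) := by
      rw [← Real.rpow_neg_one u, ← Real.rpow_add hu]
      congr 1
      ring
    calc W a T u * ‖((ff u - D0 u : ℝ) : ℂ) - OO X u‖ ≤
        W a T u * ((C + 8) * T ^ (5 / 2 : ℝ) * u⁻¹) := by gcongr
      _ = (C + 8) * (T ^ (-a) * T ^ (5 / 2 : ℝ)) * ((u ^ (a - 1) * u⁻¹) * Real.exp (-(T⁻¹ * u))) := by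
          rw [W_eq a hT0 hu]
          ring
      _ ≤ (C + 8) * T ^ (-(1 / 2 : ℝ)) * (u ^ (a - 2) * (Real.exp 1 * Real.exp (-(1 * u)))) := by
          rw [h15]
          gcongr
      _ = _ := by ring
  · -- large `u`
    refine le_trans ?_ (le_add_of_nonneg_left hP1)
    have key : ‖((ff u - D0 u : ℝ) : ℂ) - OO X u‖ * Real.exp (-((2 * T)⁻¹ * u)) ≤
        (C2 + C3 + (C + 8) * C4) * u ^ (-(1 / 2) + e) := by
      have hu12 : u ^ (-(1 / 2 : ℝ)) ≤ u ^ (-(1 / 2) + e) :=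
        Real.rpow_le_rpow_of_exponent_le hu1 (by linarith)
      have hue : 0 < u ^ (-(1 / 2) + e) := by positivity
      rcases le_total u (T ^ (1 + e)) with hr | hr
      · have hXu : u ^ (1 + e) ≤ X := by
          calc u ^ (1 + e) ≤ (T ^ (1 + e)) ^ (1 + e) := by gcongr
            _ = T ^ ((1 + e) * (1 + e)) := by rw [← Real.rpow_mul hT0.le]
            _ ≤ T ^ (1 + ε) := by
                refine Real.rpow_le_rpow_of_exponent_le hT ?_
                nlinarith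
            _ ≤ X := hX1
        have h5 := hAFE u X hu1 hXu
        have h6 := hDIA u X hu1 hXu
        have h7 : ((ff u - D0 u : ℝ) : ℂ) - OO X u = ((ff u : ℂ) - PX X u) + ((DD X u - D0 u : ℝ) : ℂ) := by
          rw [split]
          push_cast
          ring
        have h8 : ‖((ff u - D0 u : ℝ) : ℂ) - OO X u‖ ≤ (C2 + C3) * u ^ (-(1 / 2) + e) := by
          rw [h7]
          refine (norm_add_le _ _).trans ?_
          rw [norm_real, Real.norm_eq_abs]
          have h9 : |DD X u - D0 u| ≤ C3 * u ^ (-(1 / 2 : ℝ)) := h6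
          have h10 : C3 * u ^ (-(1 / 2 : ℝ)) ≤ C3 * u ^ (-(1 / 2) + e) := by gcongr
          linarith
        have h9 : Real.exp (-((2 * T)⁻¹ * u)) ≤ 1 := by
          apply Real.exp_le_one_iff.2
          have : 0 ≤ (2 * T)⁻¹ * u := by positivity
          linarith
        calc ‖((ff u - D0 u : ℝ) : ℂ) - OO X u‖ * Real.exp (-((2 * T)⁻¹ * u)) ≤
            ((C2 + C3) * u ^ (-(1 / 2) + e)) * 1 := by gcongr
          _ ≤ _ := by
            have : 0 ≤ (C + 8) * C4 * u ^ (-(1 / 2) + e) := by positivity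
            linarith
      · have hTu : T ≤ u := by
          refine le_trans ?_ hr
          calc T = T ^ (1 : ℝ) := (Real.rpow_one T).symm
            _ ≤ T ^ (1 + e) := Real.rpow_le_rpow_of_exponent_le hT (by linarith)
        have h5 : (X : ℝ) ≤ 2 * u ^ 2 := by
          refine hX2.trans ?_
          have : T ^ (1 + ε) ≤ u ^ 2 := by
            calc T ^ (1 + ε) ≤ T ^ (2 : ℝ) := Real.rpow_le_rpow_of_exponent_le hT (by linarith)
              _ = T ^ 2 := by norm_cast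
              _ ≤ u ^ 2 := by gcongr
          linarith
        have h6 : ‖((ff u - D0 u : ℝ) : ℂ) - OO X u‖ ≤ (C + 8) * u ^ (N + 4) := by
          refine hcr.trans ?_
          have h7 := hE2 u hu1
          have h8 : u ^ N ≤ u ^ (N + 4) := pow_le_pow_right₀ hu1 (by omega)
          have h9 : u ^ 4 ≤ u ^ (N + 4) := pow_le_pow_right₀ hu1 (by omega)
          have h10 : (X : ℝ) ^ 2 ≤ 4 * u ^ 4 := by
            calc (X : ℝ) ^ 2 ≤ (2 * u ^ 2) ^ 2 := by gcongr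
              _ = 4 * u ^ 4 := by ring
          nlinarith
        have h7 : u ^ κ ≤ T⁻¹ * u := by
          have h8 : T ≤ u ^ (1 / (1 + e)) := by
            calc T = (T ^ (1 + e)) ^ (1 / (1 + e)) := by
                  rw [← Real.rpow_mul hT0.le, mul_one_div_cancel (by positivity), Real.rpow_one]
              _ ≤ u ^ (1 / (1 + e)) := by gcongr
          have h9 : u ^ κ * u ^ (1 / (1 + e)) = u := by
            rw [← Real.rpow_add hu]
            have : κ + 1 / (1 + e) = 1 := by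
              rw [hκ]
              field_simp
              ring
            rw [this, Real.rpow_one]
          rw [inv_mul_eq_div, le_div_iff₀ hT0]
          calc u ^ κ * T ≤ u ^ κ * u ^ (1 / (1 + e)) := by gcongr
            _ = u := h9
        have h10 : Real.exp (-((2 * T)⁻¹ * u)) ≤ Real.exp (-(u ^ κ / 2)) := by
          apply Real.exp_le_exp.2
          have : (2 * T)⁻¹ * u = T⁻¹ * u / 2 := by
            field_simp
          rw [this]
          linarith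
        calc ‖((ff u - D0 u : ℝ) : ℂ) - OO X u‖ * Real.exp (-((2 * T)⁻¹ * u)) ≤
            ((C + 8) * u ^ (N + 4)) * Real.exp (-(u ^ κ / 2)) := by gcongr
          _ = (C + 8) * (u ^ (N + 4) * Real.exp (-(u ^ κ / 2))) := by ring
          _ ≤ (C + 8) * (C4 * u ^ (-(1 / 2 : ℝ))) := by
              have := hexp u hu1
              gcongr
          _ ≤ (C + 8) * (C4 * u ^ (-(1 / 2) + e)) := by gcongr
          _ ≤ _ := by
            have : 0 ≤ (C2 + C3) * u ^ (-(1 / 2) + e) := by positivity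
            linarith
    have h13 : Real.exp (-(T⁻¹ * u)) = Real.exp (-((2 * T)⁻¹ * u)) * Real.exp (-((2 * T)⁻¹ * u)) := by
      rw [← Real.exp_add]
      congr 1
      field_simp
      ring
    have h15 : u ^ (a - 1) * u ^ (-(1 / 2) + e) = u ^ (a - 3 / 2 + e) := by
      rw [← Real.rpow_add hu]
      congr 1
      ring
    calc W a T u * ‖((ff u - D0 u : ℝ) : ℂ) - OO X u‖ =
        T ^ (-a) * (u ^ (a - 1) * Real.exp (-((2 * T)⁻¹ * u))) *
          (‖((ff u - D0 u : ℝ) : ℂ) - OO X u‖ * Real.exp (-((2 * T)⁻¹ * u))) := by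
          rw [W_eq a hT0 hu, h13]
          ring
      _ ≤ T ^ (-a) * (u ^ (a - 1) * Real.exp (-((2 * T)⁻¹ * u))) *
          ((C2 + C3 + (C + 8) * C4) * u ^ (-(1 / 2) + e)) := by gcongr
      _ = (C2 + C3 + (C + 8) * C4) * T ^ (-a) *
          ((u ^ (a - 1) * u ^ (-(1 / 2) + e)) * Real.exp (-((2 * T)⁻¹ * u))) := by ring
      _ = _ := by rw [h15]

/-! ### Measurability -/

lemma co_cont (p : ℕ × ℕ) (hp : 0 < ht p) : ContinuousOn (co p) (Ioi 0) := by
  intro u hu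
  have hu' : (0 : ℝ) < u := hu
  have h1 : 0 < 2 * Real.pi * ht p / u := by positivity
  have h2 : ContinuousAt V (2 * Real.pi * ht p / u) := (Pool.Agent.Y587.GP.t_V.2.1 _ h1).continuousAt
  have h3 : ContinuousAt (fun u : ℝ => 2 * Real.pi * ht p / u) u :=
    continuousAt_const.div continuousAt_id hu'.ne'
  have h4 : ContinuousAt (fun u : ℝ => V (2 * Real.pi * ht p / u)) u :=
    ContinuousAt.comp (f := fun u : ℝ => 2 * Real.pi * ht p / u) h2 h3
  exact (continuousAt_const.mul h4).continuousWithinAt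

lemma OO_cont (X : ℕ) : ContinuousOn (OO X) (Ioi 0) := by
  unfold OO
  refine continuousOn_finsetSum _ fun p hp => ?_
  obtain ⟨h1, h2⟩ := mem_PS (Finset.mem_filter.1 hp).1
  have h3 : 0 < ht p := by
    unfold ht
    have h1' : (0 : ℝ) < p.1 := by exact_mod_cast h1
    have h2' : (0 : ℝ) < p.2 := by exact_mod_cast h2
    positivity
  have h4 : ContinuousOn (fun u : ℝ => (co p u : ℂ)) (Ioi 0) :=
    continuous_ofReal.comp_continuousOn (co_cont p h3)
  have h5 : Continuous (fun u : ℝ => cexp (I * ((u * lam p : ℝ) : ℂ))) := by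
    fun_prop
  exact h4.mul h5.continuousOn

lemma W_meas (a T : ℝ) : Measurable (W a T) := by
  unfold W
  fun_prop

lemma D0_meas : Measurable D0 := by
  unfold D0
  fun_prop

lemma W_int {a T : ℝ} (ha : 3 < a) (hT : 0 < T) : IntegrableOn (W a T) (Ioi 0) := by
  have h := (intg (s := a - 1) (r := T⁻¹) (by linarith) (by positivity)).const_mul (T ^ (-a))
  exact IntegrableOn.congr_fun h (fun u hu => (W_eq a hT hu).symm) measurableSet_Ioi

lemma WE_int (h3 : S_CRU) {a T : ℝ} (ha : 3 < a) (hT : 0 < T) :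
    IntegrableOn (fun u => W a T u * (ff u - D0 u)) (Ioi 0) := by
  have hff : Continuous ff := by
    obtain ⟨-, -, -, h, -⟩ := h3
    exact h
  obtain ⟨C, N, hC, hE1, hE2⟩ := E_bd h3
  have h1 := (intg (s := a - 2) (r := T⁻¹) (by linarith) (by positivity)).const_mul (C * T ^ (-a))
  have h2 := (intg (s := a - 1 + N) (r := T⁻¹) (by
    have : (0 : ℝ) ≤ N := Nat.cast_nonneg _
    linarith) (by positivity)).const_mul (C * T ^ (-a))
  refine Integrable.mono' (h1.add h2) ?_ ?_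
  · exact ((W_meas a T).mul (hff.measurable.sub D0_meas)).aestronglyMeasurable
  · refine (ae_restrict_iff' measurableSet_Ioi).2 (Eventually.of_forall fun u hu => ?_)
    have hu' : (0 : ℝ) < u := hu
    have hW := W_nonneg a hT hu'
    have h4 : |ff u - D0 u| ≤ C * u⁻¹ + C * u ^ N := by
      have h5 : 0 ≤ C * u⁻¹ := by positivity
      have h6 : 0 ≤ C * u ^ N := by positivity
      rcases le_total u 1 with h7 | h7
      · linarith [hE1 u hu' h7]
      · linarith [hE2 u h7]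
    have h15 : u ^ (a - 1) * u⁻¹ = u ^ (a - 2) := by
      rw [← Real.rpow_neg_one u, ← Real.rpow_add hu']
      congr 1
      ring
    have h16 : u ^ (a - 1) * u ^ N = u ^ (a - 1 + N) := by
      rw [← Real.rpow_natCast u N, ← Real.rpow_add hu']
    rw [Real.norm_eq_abs, abs_mul, abs_of_nonneg hW]
    calc W a T u * |ff u - D0 u| ≤ W a T u * (C * u⁻¹ + C * u ^ N) := by gcongr
      _ = C * T ^ (-a) * ((u ^ (a - 1) * u⁻¹) * Real.exp (-(T⁻¹ * u))) +
          C * T ^ (-a) * ((u ^ (a - 1) * u ^ N) * Real.exp (-(T⁻¹ * u))) := by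
          rw [W_eq a hT hu']
          ring
      _ = _ := by rw [h15, h16]; rfl

lemma ex_norm (τ u : ℝ) : ‖cexp (-(I * ((τ * Real.log u : ℝ) : ℂ)))‖ = 1 := by
  rw [← mul_neg, mul_comm, ← ofReal_neg, norm_exp_ofReal_mul_I]

lemma ex_meas (τ : ℝ) : Measurable (fun u : ℝ => cexp (-(I * ((τ * Real.log u : ℝ) : ℂ)))) := by
  fun_prop

end Lem

open Lem in
theorem t_LEM (h1 : S_OFI) (h2 : S_DIA) (h3 : S_CRU) (h4 : Pool.Agent.Y969.GP.S_AFE)
    (_h5 : Pool.Agent.Y969.GP.S_SM) : S_LEM := by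
  obtain ⟨a, ε, δ, ha, hε, hε1, hδ, hδ1, C1, T1, hC1, hT1, hO⟩ := h1
  obtain ⟨K₁, K₂, hK₁, hK₂, hp⟩ := ptw h2 h3 h4 ha hε hε1
  set G1 := Real.Gamma (a - 1) with hG1
  set G2 := (2 : ℝ) ^ (a - 1 / 2 + ε / 4) * Real.Gamma (a - 1 / 2 + ε / 4) with hG2
  have hG1p : 0 < G1 := Real.Gamma_pos_of_pos (by linarith)
  have hG2p : 0 < G2 := mul_pos (by positivity) (Real.Gamma_pos_of_pos (by linarith))
  refine ⟨a, min δ (1 / 4), ha, by positivity, (min_le_left _ _).trans hδ1,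
    C1 + K₁ * G1 + K₂ * G2, T1, by positivity, hT1, fun T hT => ?_⟩
  have hT1' : 1 ≤ T := hT1.trans hT
  have hT0 : 0 < T := by linarith
  have hI := WE_int h3 ha hT0
  refine ⟨hI, fun τ => ?_⟩
  set X : ℕ := ⌈T ^ (1 + ε)⌉₊ with hX
  have hX1 : T ^ (1 + ε) ≤ X := Nat.le_ceil _
  have hX2 : (X : ℝ) ≤ 2 * T ^ (1 + ε) := by
    have h5 := Nat.ceil_lt_add_one (a := T ^ (1 + ε)) (by positivity)
    have h6 : 1 ≤ T ^ (1 + ε) := Real.one_le_rpow hT1' (by linarith)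
    linarith
  set E : ℝ → ℂ := fun u => cexp (-(I * ((τ * Real.log u : ℝ) : ℂ))) with hE
  have hEm : AEStronglyMeasurable E (volume.restrict (Ioi 0)) := (ex_meas τ).aestronglyMeasurable
  have hI1 : Integrable (fun u => ((W a T u * (ff u - D0 u) : ℝ) : ℂ) * E u)
      (volume.restrict (Ioi 0)) := by
    refine Integrable.mono' hI.norm (hI.ofReal.aestronglyMeasurable.mul hEm)
      (Eventually.of_forall fun u => ?_)
    rw [norm_mul, hE, ex_norm, mul_one, norm_real]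
  have hI2 : Integrable (fun u => (W a T u : ℂ) * OO X u * E u) (volume.restrict (Ioi 0)) := by
    refine Integrable.mono' ((W_int ha hT0).mul_const (2 * (X : ℝ) ^ 2))
      ((((W_meas a T).complex_ofReal.aestronglyMeasurable).mul
        ((OO_cont X).aestronglyMeasurable measurableSet_Ioi)).mul hEm) ?_
    refine (ae_restrict_iff' measurableSet_Ioi).2 (Eventually.of_forall fun u hu => ?_)
    have hu' : (0 : ℝ) < u := hu
    have hW := W_nonneg a hT0 hu'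
    rw [norm_mul, norm_mul, hE, ex_norm, mul_one, norm_real, Real.norm_eq_abs, abs_of_nonneg hW]
    have := OO_bd X hu'
    gcongr
  have e1 : ∫ u in Ioi (0 : ℝ), ((W a T u * (ff u - D0 u) : ℝ) : ℂ) * E u =
      (∫ u in Ioi (0 : ℝ), (W a T u : ℂ) * OO X u * E u) +
      ∫ u in Ioi (0 : ℝ), (((W a T u * (ff u - D0 u) : ℝ) : ℂ) * E u - (W a T u : ℂ) * OO X u * E u) := by
    rw [integral_sub hI1 hI2]
    ring
  have hb1 : ‖∫ u in Ioi (0 : ℝ), (W a T u : ℂ) * OO X u * E u‖ ≤ C1 * T ^ (-δ) :=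
    hO T τ X hT hX1 hX2
  have hg1 := (intg (s := a - 2) (r := 1) (by linarith) one_pos).const_mul (K₁ * T ^ (-(1 / 2 : ℝ)))
  have hg2 := (intg (s := a - 3 / 2 + ε / 4) (r := (2 * T)⁻¹) (by linarith)
    (by positivity)).const_mul (K₂ * T ^ (-a))
  have hb2 : ‖∫ u in Ioi (0 : ℝ), (((W a T u * (ff u - D0 u) : ℝ) : ℂ) * E u -
      (W a T u : ℂ) * OO X u * E u)‖ ≤
      K₁ * T ^ (-(1 / 2 : ℝ)) * G1 + K₂ * T ^ (-a) * ((2 * T) ^ (a - 1 / 2 + ε / 4) *
        Real.Gamma (a - 1 / 2 + ε / 4)) := by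
    have h5 := norm_integral_le_of_norm_le (f := fun u => ((W a T u * (ff u - D0 u) : ℝ) : ℂ) * E u -
      (W a T u : ℂ) * OO X u * E u) (hg1.add hg2) ((ae_restrict_iff' measurableSet_Ioi).2
        (Eventually.of_forall fun u hu => by
        have hu' : (0 : ℝ) < u := hu
        have hW := W_nonneg a hT0 hu'
        have h6 : ((W a T u * (ff u - D0 u) : ℝ) : ℂ) * E u - (W a T u : ℂ) * OO X u * E u =
            (W a T u : ℂ) * (((ff u - D0 u : ℝ) : ℂ) - OO X u) * E u := by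
          push_cast
          ring
        rw [h6, norm_mul, norm_mul, hE, ex_norm, mul_one, norm_real, Real.norm_eq_abs, abs_of_nonneg hW]
        exact hp T X hT1' hX1 hX2 u hu'))
    refine h5.trans (le_of_eq ?_)
    have h7 : ∫ u in Ioi (0 : ℝ), u ^ (a - 2) * Real.exp (-(1 * u)) = G1 := by
      rw [val (by linarith) one_pos]
      have : a - 2 + 1 = a - 1 := by ring
      rw [this, one_div, inv_one, Real.one_rpow, one_mul]
    have h8 : ∫ u in Ioi (0 : ℝ), u ^ (a - 3 / 2 + ε / 4) * Real.exp (-((2 * T)⁻¹ * u)) =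
        (2 * T) ^ (a - 1 / 2 + ε / 4) * Real.Gamma (a - 1 / 2 + ε / 4) := by
      rw [val (by linarith) (by positivity)]
      have : a - 3 / 2 + ε / 4 + 1 = a - 1 / 2 + ε / 4 := by ring
      rw [this, one_div, inv_inv]
    calc ∫ u in Ioi (0 : ℝ), ((fun u : ℝ => K₁ * T ^ (-(1 / 2 : ℝ)) * (u ^ (a - 2) * Real.exp (-(1 * u)))) +
          (fun u : ℝ => K₂ * T ^ (-a) * (u ^ (a - 3 / 2 + ε / 4) * Real.exp (-((2 * T)⁻¹ * u))))) u
        = (∫ u in Ioi (0 : ℝ), K₁ * T ^ (-(1 / 2 : ℝ)) * (u ^ (a - 2) * Real.exp (-(1 * u)))) +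
          ∫ u in Ioi (0 : ℝ), K₂ * T ^ (-a) * (u ^ (a - 3 / 2 + ε / 4) * Real.exp (-((2 * T)⁻¹ * u))) :=
          integral_add hg1 hg2
      _ = _ := by rw [integral_const_mul, integral_const_mul, h7, h8]
  have hm : ∀ x : ℝ, x ≤ -min δ (1 / 4) → T ^ x ≤ T ^ (-min δ (1 / 4)) := fun x hx =>
    Real.rpow_le_rpow_of_exponent_le hT1' hx
  have hmδ := min_le_left δ (1 / 4)
  have hm4 := min_le_right δ (1 / 4)
  have hc1 : C1 * T ^ (-δ) ≤ C1 * T ^ (-min δ (1 / 4)) := by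
    have := hm (-δ) (by linarith)
    gcongr
  have hc2 : K₁ * T ^ (-(1 / 2 : ℝ)) * G1 ≤ K₁ * G1 * T ^ (-min δ (1 / 4)) := by
    have := hm (-(1 / 2)) (by linarith)
    calc K₁ * T ^ (-(1 / 2 : ℝ)) * G1 = K₁ * G1 * T ^ (-(1 / 2 : ℝ)) := by ring
      _ ≤ _ := by gcongr
  have hc3 : K₂ * T ^ (-a) * ((2 * T) ^ (a - 1 / 2 + ε / 4) * Real.Gamma (a - 1 / 2 + ε / 4)) ≤
      K₂ * G2 * T ^ (-min δ (1 / 4)) := by
    have h6 := hm (-(1 / 2) + ε / 4) (by linarith)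
    have h7 : T ^ (-a) * T ^ (a - 1 / 2 + ε / 4) = T ^ (-(1 / 2) + ε / 4) := by
      rw [← Real.rpow_add hT0]
      congr 1
      ring
    calc K₂ * T ^ (-a) * ((2 * T) ^ (a - 1 / 2 + ε / 4) * Real.Gamma (a - 1 / 2 + ε / 4)) =
        K₂ * G2 * (T ^ (-a) * T ^ (a - 1 / 2 + ε / 4)) := by
          rw [Real.mul_rpow (by norm_num) hT0.le, hG2]
          ring
      _ = K₂ * G2 * T ^ (-(1 / 2) + ε / 4) := by rw [h7]
      _ ≤ _ := by gcongr
  show ‖∫ u in Ioi (0 : ℝ), ((W a T u * (ff u - D0 u) : ℝ) : ℂ) * E u‖ ≤ _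
  rw [e1]
  refine (norm_add_le _ _).trans ((add_le_add hb1 hb2).trans ?_)
  have : (C1 + K₁ * G1 + K₂ * G2) * T ^ (-min δ (1 / 4)) = C1 * T ^ (-min δ (1 / 4)) +
    K₁ * G1 * T ^ (-min δ (1 / 4)) + K₂ * G2 * T ^ (-min δ (1 / 4)) := by ring
  rw [this]
  linarith

end Pool.Agent.N879.GD
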